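import Mathlib

/-!
# Equitable choosability and disjoint unions of stars: definitions
-/

set_option autoImplicit false

namespace Pool.Agent.R946.ES

/-- `G` is equitably `k`-choosable: for every assignment of lists of size `k` there is a proper
colouring from the lists using each colour at most `⌈|V| / k⌉` times. -/
def EquitablyChoosable {V : Type*} [Fintype V] (G : SimpleGraph V) (k : ℕ) : Prop :=
  ∀ L : V → Finset ℕ, (∀ v, (L v).card = k) →
    ∃ c : V → ℕ, (∀ v, c v ∈ L v) ∧ (∀ u v, G.Adj u v → c u ≠ c v) ∧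
      ∀ a, (Finset.univ.filter fun v => c v = a).card ≤ ⌈(Fintype.card V : ℚ) / k⌉₊

/-- The disjoint union of the stars `K_{1, m i}`: the vertex `⟨i, none⟩` is the centre of the
`i`-th star, and `⟨i, some l⟩` are its leaves. -/
def stars {n : ℕ} (m : Fin n → ℕ) : SimpleGraph (Σ i : Fin n, Option (Fin (m i))) where
  Adj x y := x.1 = y.1 ∧ x.2.isNone ≠ y.2.isNone
  symm := ⟨fun _ _ h => ⟨h.1.symm, h.2.symm⟩⟩
  loopless := ⟨fun _ h => h.2 rfl⟩

end Pool.Agent.R946.ES
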