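import Mathlib

/-!
# Equitable choosability of unions of stars: the counting core
-/

set_option autoImplicit false

open Finset

namespace Pool.Agent.R946.ES

/-- does the list `{u, v}` equal `{a, c}`? -/
def ind (u v a c : ℕ) : ℕ := if (u = a ∧ v = c) ∨ (u = c ∧ v = a) then 1 else 0

/-- a star with a list assignment of lists of size two: the list `{p, q}` of the centre and the
lists `{u l, v l}` of the leaves -/
structure Star where
  /-- number of leaves -/
  m : ℕ
  /-- first colour of the centre -/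
  p : ℕ
  /-- second colour of the centre -/
  q : ℕ
  /-- first colour of a leaf -/
  u : Fin m → ℕ
  /-- second colour of a leaf -/
  v : Fin m → ℕ
  hm : 1 ≤ m
  hpq : p ≠ q
  huv : ∀ l, u l ≠ v l

namespace Star

/-- the colour of the centre -/
def col (s : Star) (b : Bool) : ℕ := if b then s.p else s.q

/-- the number of leaves with list `{a, c}` -/
def Y (s : Star) (a c : ℕ) : ℕ := ∑ l, ind (s.u l) (s.v l) a c

/-- the number of vertices forced to have colour `c` when the centre has the colour `col b` -/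
def nn (s : Star) (b : Bool) (c : ℕ) : ℕ := (if s.col b = c then 1 else 0) + s.Y (s.col b) c

/-- the centre has the list `{a, b}` -/
def isg (s : Star) (a b : ℕ) : Prop := (s.p = a ∧ s.q = b) ∨ (s.p = b ∧ s.q = a)

instance (s : Star) (a b : ℕ) : Decidable (s.isg a b) := by unfold isg; infer_instance

lemma sum_bound (s : Star) (f : ℕ → ℕ → ℕ) (K : ℕ) (h : ∀ u v, u ≠ v → f u v ≤ K) :
    ∑ l, f (s.u l) (s.v l) ≤ K * s.m := by
  have := Finset.sum_le_card_nsmul (Finset.univ : Finset (Fin s.m))
    (fun l => f (s.u l) (s.v l)) K (fun l _ => h _ _ (s.huv l))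
  simpa [mul_comm] using this

lemma Y_self (s : Star) (c : ℕ) : s.Y c c = 0 := by
  have := s.sum_bound (fun u v => ind u v c c) 0 (by
    intro u v h
    unfold ind
    split_ifs <;> omega)
  simpa [Y] using this

lemma Y_comm (s : Star) (a c : ℕ) : s.Y a c = s.Y c a := by
  unfold Y
  refine Finset.sum_congr rfl fun l _ => ?_
  unfold ind
  congr 1
  rw [eq_iff_iff]
  tauto

lemma Y_le (s : Star) (a c : ℕ) : s.Y a c ≤ s.m := by
  have := s.sum_bound (fun u v => ind u v a c) 1 (by
    intro u v h
    unfold ind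
    split_ifs <;> omega)
  simpa [Y] using this

lemma Y2 (s : Star) {x c y d : ℕ} (h1 : ¬ (x = y ∧ c = d)) (h2 : ¬ (x = d ∧ c = y)) :
    s.Y x c + s.Y y d ≤ s.m := by
  have := s.sum_bound (fun u v => ind u v x c + ind u v y d) 1 (by
    intro u v h
    unfold ind
    split_ifs <;> omega)
  simpa [Y, Finset.sum_add_distrib] using this

lemma nn_same (s : Star) (b : Bool) (c : ℕ) : s.nn b c + s.nn (!b) c ≤ s.m + 1 := by
  have h := s.hpq
  have h1 := s.Y2 (x := s.p) (c := c) (y := s.q) (d := c) (by omega) (by omega)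
  cases b <;> simp only [nn, col, Bool.not_false, Bool.not_true, if_true, if_false,
    Bool.false_eq_true] <;> split_ifs <;> omega

lemma nn_pair (s : Star) (b : Bool) {c d : ℕ} (hcd : c ≠ d) (h : ¬ s.isg c d) :
    s.nn b c + s.nn (!b) d ≤ s.m + 1 := by
  have hpq := s.hpq
  have hm := s.hm
  unfold isg at h
  have h1 := s.Y2 (x := s.p) (c := c) (y := s.q) (d := d) (by omega) (by omega)
  have h2 := s.Y2 (x := s.q) (c := c) (y := s.p) (d := d) (by omega) (by omega)
  cases b <;> simp only [nn, col, Bool.not_false, Bool.not_true, if_true, if_false,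
    Bool.false_eq_true] <;> split_ifs <;> omega

/-- on a star with centre list `{c, d}` -/
lemma nn_isg (s : Star) (b : Bool) {c d : ℕ} (hcd : c ≠ d) (h : s.isg c d) :
    s.nn b c + s.nn (!b) d = if s.col b = c then 2 else 2 * s.Y c d := by
  have h0 := s.Y_self c
  have h0' := s.Y_self d
  have hc := s.Y_comm c d
  rcases h with ⟨h1, h2⟩ | ⟨h1, h2⟩ <;> cases b <;>
    simp only [nn, col, Bool.not_false, Bool.not_true, if_true, if_false,
      Bool.false_eq_true, h1, h2, hcd, hcd.symm] <;> omega

lemma nn_four (s : Star) (b : Bool) {c d : ℕ} (hcd : c ≠ d) (h : ¬ s.isg c d) :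
    s.nn b c + s.nn (!b) d + s.nn (!b) c + s.nn b d ≤ s.m + 1 := by
  have hpq := s.hpq
  have hm := s.hm
  unfold isg at h
  have h1 := s.sum_bound (fun u v => ind u v s.p c + ind u v s.q c + ind u v s.p d +
    ind u v s.q d) 1 (by
    intro u v h
    unfold ind
    split_ifs <;> omega)
  simp only [Finset.sum_add_distrib] at h1
  change s.Y s.p c + s.Y s.q c + s.Y s.p d + s.Y s.q d ≤ 1 * s.m at h1
  cases b <;> simp only [nn, col, Bool.not_false, Bool.not_true, if_true, if_false,
    Bool.false_eq_true] <;> split_ifs <;> omega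

lemma nn_disj (s : Star) (b b' : Bool) {c d x y : ℕ} (hcd : c ≠ d) (hxy : x ≠ y) (h1 : c ≠ x)
    (h2 : c ≠ y) (h3 : d ≠ x) (h4 : d ≠ y) :
    s.nn b c + s.nn (!b) d + s.nn b' x + s.nn (!b') y ≤ 2 * (s.m + 1) := by
  have hpq := s.hpq
  have hm := s.hm
  have key : ∀ P Q P' Q' : ℕ, P ≠ Q → ((P' = P ∧ Q' = Q) ∨ (P' = Q ∧ Q' = P)) →
      s.Y P c + s.Y Q d + s.Y P' x + s.Y Q' y ≤ 2 * s.m := by
    intro P Q P' Q' hPQ hP
    have h1 := s.sum_bound (fun u v => ind u v P c + ind u v Q d + ind u v P' x +
      ind u v Q' y) 2 (by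
      intro u v h
      unfold ind
      split_ifs <;> omega)
    simp only [Finset.sum_add_distrib] at h1
    exact h1
  have k1 := key s.p s.q s.p s.q hpq (Or.inl ⟨rfl, rfl⟩)
  have k2 := key s.p s.q s.q s.p hpq (Or.inr ⟨rfl, rfl⟩)
  have k3 := key s.q s.p s.p s.q hpq.symm (Or.inr ⟨rfl, rfl⟩)
  have k4 := key s.q s.p s.q s.p hpq.symm (Or.inl ⟨rfl, rfl⟩)
  cases b <;> cases b' <;> simp only [nn, col, Bool.not_false, Bool.not_true, if_true, if_false,
    Bool.false_eq_true] <;> split_ifs <;> omega

lemma nn_star (s : Star) (b' b : Bool) {x y : ℕ} (hxy : x ≠ y) :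
    s.nn b' y + s.nn b x + s.nn (!b) x ≤ s.m + 1 + if s.isg x y then s.Y x y else 0 := by
  have hpq := s.hpq
  have hm := s.hm
  have k0 := s.Y_self x
  have k0' := s.Y_self y
  have kc := s.Y_comm x y
  have kl := s.Y_le x y
  by_cases hg : s.isg x y
  · rw [if_pos hg]
    rcases hg with ⟨h1, h2⟩ | ⟨h1, h2⟩ <;> cases b <;> cases b' <;>
      simp only [nn, col, Bool.not_false, Bool.not_true, if_true, if_false,
        Bool.false_eq_true, h1, h2, hxy, hxy.symm] <;> omega
  · rw [if_neg hg]
    unfold isg at hg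
    have key : ∀ z : ℕ, (z = s.p ∨ z = s.q) → s.Y z y + s.Y s.p x + s.Y s.q x ≤ s.m := by
      intro z hz
      have h1 := s.sum_bound (fun u v => ind u v z y + ind u v s.p x + ind u v s.q x) 1 (by
        intro u v h
        unfold ind
        split_ifs <;> omega)
      simp only [Finset.sum_add_distrib, one_mul] at h1
      exact h1
    have k1 := key s.p (Or.inl rfl)
    have k2 := key s.q (Or.inr rfl)
    cases b <;> cases b' <;> simp only [nn, col, Bool.not_false, Bool.not_true, if_true,
      if_false, Bool.false_eq_true] <;> split_ifs <;> omega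

end Star

end Pool.Agent.R946.ES
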