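import Mathlib
import Pool.Agent.R946.ES.Core

/-!
# Equitable choosability of unions of stars: the choice of the colours of the centres
-/

set_option autoImplicit false

open Finset

namespace Pool.Agent.R946.ES

variable {n : ℕ}

/-- the number of vertices forced to have colour `c` -/
def NN (S : Fin n → Star) (e : Fin n → Bool) (c : ℕ) : ℕ := ∑ i, (S i).nn (e i) c

/-- the number of vertices -/
def NV (S : Fin n → Star) : ℕ := ∑ i, ((S i).m + 1)

/-- the opposite choice -/
def flip (e : Fin n → Bool) : Fin n → Bool := fun i => !(e i)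

lemma flip_flip (e : Fin n → Bool) : flip (flip e) = e := by
  funext i
  simp [flip]

/-- choose the colour `x` -/
def pick (s : Star) (x : ℕ) : Bool := decide (s.p = x)

lemma col_pick {s : Star} {x y : ℕ} (h : s.isg x y) : s.col (pick s x) = x := by
  rcases h with ⟨h1, h2⟩ | ⟨h1, h2⟩
  · simp [pick, Star.col, h1]
  · have hpq := s.hpq
    have : s.p ≠ x := by
      rw [h1]
      intro h
      apply hpq
      rw [h1, h2, h]
    simp [pick, Star.col, this, h2]

lemma col_not_pick {s : Star} {x y : ℕ} (h : s.isg x y) : s.col (!(pick s x)) = y := by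
  rcases h with ⟨h1, h2⟩ | ⟨h1, h2⟩
  · simp [pick, Star.col, h1, h2]
  · have hpq := s.hpq
    have : s.p ≠ x := by
      rw [h1]
      intro h
      apply hpq
      rw [h1, h2, h]
    have hyx : y ≠ x := h1 ▸ this
    simp [pick, Star.col, hyx, h1]

lemma isg_comm {s : Star} {x y : ℕ} : s.isg x y ↔ s.isg y x := by
  unfold Star.isg
  tauto

section bad

variable {S : Fin n → Star} {cap : ℕ}

lemma same_ne (hcap : NV S ≤ 2 * cap) {e : Fin n → Bool} {c d : ℕ} (h1 : cap + 1 ≤ NN S e c)
    (h2 : cap + 1 ≤ NN S (flip e) d) : c ≠ d := by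
  rintro rfl
  have : NN S e c + NN S (flip e) c ≤ NV S := by
    unfold NN NV
    rw [← Finset.sum_add_distrib]
    exact Finset.sum_le_sum fun i _ => (S i).nn_same (e i) c
  omega

/-- the unordered pair `{c, d}` is used -/
def Used (S : Fin n → Star) (cap : ℕ) (c d : ℕ) : Prop :=
  ∃ e : Fin n → Bool, cap + 1 ≤ NN S e c ∧ cap + 1 ≤ NN S (flip e) d

lemma Used.symm {c d : ℕ} (h : Used S cap c d) : Used S cap d c := by
  obtain ⟨e, h1, h2⟩ := h
  exact ⟨flip e, h2, by rwa [flip_flip]⟩

lemma Used.ne (hcap : NV S ≤ 2 * cap) {c d : ℕ} (h : Used S cap c d) : c ≠ d := by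
  obtain ⟨e, h1, h2⟩ := h
  exact same_ne hcap h1 h2

lemma Used.inter (hcap : NV S ≤ 2 * cap) {c d x y : ℕ} (h : Used S cap c d)
    (h' : Used S cap x y) : c = x ∨ c = y ∨ d = x ∨ d = y := by
  by_contra hcon
  push Not at hcon
  obtain ⟨k1, k2, k3, k4⟩ := hcon
  have hcd := h.ne hcap
  have hxy := h'.ne hcap
  obtain ⟨e, h1, h2⟩ := h
  obtain ⟨f, h3, h4⟩ := h'
  have : NN S e c + NN S (flip e) d + NN S f x + NN S (flip f) y ≤ 2 * NV S := by
    unfold NN NV
    rw [← Finset.sum_add_distrib, ← Finset.sum_add_distrib, ← Finset.sum_add_distrib,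
      Finset.mul_sum]
    exact Finset.sum_le_sum fun i _ => (S i).nn_disj (e i) (f i) hcd hxy k1 k2 k3 k4
  omega

/-- the number of leaves with list `{x, y}` in the stars whose centre has the list `{x, y}` -/
def X (S : Fin n → Star) (x y : ℕ) : ℕ := ∑ i, if (S i).isg x y then (S i).Y x y else 0

lemma X_bound {x y : ℕ} (hxy : x ≠ y) (e f : Fin n → Bool) :
    NN S f y + NN S e x + NN S (flip e) x ≤ NV S + X S x y := by
  unfold NN NV X
  rw [← Finset.sum_add_distrib, ← Finset.sum_add_distrib, ← Finset.sum_add_distrib]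
  exact Finset.sum_le_sum fun i _ => (S i).nn_star (f i) (e i) hxy

lemma X_le {x y : ℕ} (f : Fin n → Bool) (hf : ∀ i, (S i).isg x y → (S i).col (f i) = y) :
    X S x y ≤ NN S f x := by
  unfold NN X
  refine Finset.sum_le_sum fun i _ => ?_
  split_ifs with h
  · rw [Star.nn, hf i h, (S i).Y_comm y x]
    exact Nat.le_add_left _ _
  · exact Nat.zero_le _

lemma const_sum (e f : Fin n → Bool) (c : ℕ) :
    NN S e c + NN S (flip e) c = NN S f c + NN S (flip f) c := by
  unfold NN
  rw [← Finset.sum_add_distrib, ← Finset.sum_add_distrib]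
  refine Finset.sum_congr rfl fun i _ => ?_
  show (S i).nn (e i) c + (S i).nn (!(e i)) c = (S i).nn (f i) c + (S i).nn (!(f i)) c
  cases e i <;> cases f i <;> simp [add_comm]

lemma no_star (hcap : NV S ≤ 2 * cap) {x y z : ℕ}
    (hall : ∀ e, cap + 1 ≤ NN S e x ∨ cap + 1 ≤ NN S (flip e) x)
    (h1 : Used S cap x y) (h2 : Used S cap x z) (hyz : y ≠ z) : False := by
  have hxy := h1.ne hcap
  have hxz := h2.ne hcap
  -- the configuration
  let f : Fin n → Bool := fun i => if (S i).isg x y then pick (S i) y else pick (S i) x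
  have hf1 : ∀ i, (S i).isg x y → (S i).col (f i) = y := by
    intro i hi
    show (S i).col (if (S i).isg x y then pick (S i) y else pick (S i) x) = y
    rw [if_pos hi]
    exact col_pick (isg_comm.1 hi)
  have hf2 : ∀ i, (S i).isg x z → (S i).col (flip f i) = z := by
    intro i hi
    have hni : ¬ (S i).isg x y := by
      intro h
      unfold Star.isg at hi h
      omega
    show (S i).col (!(if (S i).isg x y then pick (S i) y else pick (S i) x)) = z
    rw [if_neg hni]
    exact col_not_pick hi
  obtain ⟨e1, _, he1⟩ := h1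
  obtain ⟨e2, _, he2⟩ := h2
  have b1 := X_bound (S := S) hxy f (flip e1)
  have b2 := X_bound (S := S) hxz f (flip e2)
  have l1 := X_le f hf1
  have l2 := X_le (flip f) hf2
  rcases hall f with h | h
  · omega
  · omega

/-- the cyclic configuration -/
def Cyc (S : Fin n → Star) (x y z : ℕ) (f : Fin n → Bool) : Prop :=
  ∀ i, ((S i).isg x y → (S i).col (f i) = y) ∧ ((S i).isg x z → (S i).col (f i) = x) ∧
    ((S i).isg y z → (S i).col (f i) = z)

lemma Cyc.rot {x y z : ℕ} {f : Fin n → Bool} (h : Cyc S x y z f) : Cyc S z x y f := by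
  intro i
  obtain ⟨h1, h2, h3⟩ := h i
  exact ⟨fun k => h2 (isg_comm.1 k), fun k => h3 (isg_comm.1 k), fun k => h1 k⟩

lemma exists_cyc (S : Fin n → Star) {x y z : ℕ} (hxy : x ≠ y) (hxz : x ≠ z) (hyz : y ≠ z) :
    ∃ f, Cyc S x y z f := by
  refine ⟨fun i => if (S i).isg x y then pick (S i) y else if (S i).isg x z then pick (S i) x
    else pick (S i) z, fun i => ⟨?_, ?_, ?_⟩⟩
  · intro h
    show (S i).col (if (S i).isg x y then pick (S i) y else if (S i).isg x z then pick (S i) x
      else pick (S i) z) = y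
    rw [if_pos h]
    exact col_pick (isg_comm.1 h)
  · intro h
    have h1 : ¬ (S i).isg x y := by
      intro h'
      unfold Star.isg at h h'
      omega
    show (S i).col (if (S i).isg x y then pick (S i) y else if (S i).isg x z then pick (S i) x
      else pick (S i) z) = x
    rw [if_neg h1, if_pos h]
    exact col_pick h
  · intro h
    have h1 : ¬ (S i).isg x y := by
      intro h'
      unfold Star.isg at h h'
      omega
    have h2 : ¬ (S i).isg x z := by
      intro h'
      unfold Star.isg at h h'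
      omega
    show (S i).col (if (S i).isg x y then pick (S i) y else if (S i).isg x z then pick (S i) x
      else pick (S i) z) = z
    rw [if_neg h1, if_neg h2]
    exact col_pick (isg_comm.1 h)

lemma dom_star (s : Star) {x y z : ℕ} (hxy : x ≠ y) (hxz : x ≠ z) (hyz : y ≠ z) (b : Bool)
    (h1 : s.isg x y → s.col b = y) (h2 : s.isg x z → s.col b = x)
    (h3 : s.isg y z → s.col b = z) :
    s.nn b x + s.nn (!b) y + (if s.isg x z then s.Y x z else 0) +
      (if s.isg y z then s.Y y z else 0) ≤ s.m + 1 + if s.isg x y then s.Y x y else 0 := by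
  have hm := s.hm
  by_cases g1 : s.isg x y
  · have g2 : ¬ s.isg x z := by
      intro h'
      unfold Star.isg at g1 h'
      omega
    have g3 : ¬ s.isg y z := by
      intro h'
      unfold Star.isg at g1 h'
      omega
    rw [if_pos g1, if_neg g2, if_neg g3, s.nn_isg b hxy g1, h1 g1, if_neg hxy.symm]
    have := s.Y_le x y
    omega
  · rw [if_neg g1]
    by_cases g2 : s.isg x z
    · have g3 : ¬ s.isg y z := by
        intro h'
        unfold Star.isg at g2 h'
        omega
      rw [if_pos g2, if_neg g3]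
      have hc := h2 g2
      have hc' : s.col (!b) = z := by
        unfold Star.isg at g2
        cases b <;> simp only [Star.col, Bool.not_false, Bool.not_true, if_true, if_false,
          Bool.false_eq_true] at hc ⊢ <;> omega
      rw [Star.nn, Star.nn, hc, hc', if_pos rfl, if_neg hyz.symm, s.Y_self]
      have := s.Y2 (x := z) (c := y) (y := x) (d := z) (by omega) (by omega)
      omega
    · rw [if_neg g2]
      by_cases g3 : s.isg y z
      · rw [if_pos g3]
        have hc := h3 g3
        have hc' : s.col (!b) = y := by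
          unfold Star.isg at g3
          cases b <;> simp only [Star.col, Bool.not_false, Bool.not_true, if_true, if_false,
            Bool.false_eq_true] at hc ⊢ <;> omega
        rw [Star.nn, Star.nn, hc, hc', if_pos rfl, if_neg hxz.symm, s.Y_self]
        have := s.Y2 (x := z) (c := x) (y := y) (d := z) (by omega) (by omega)
        omega
      · rw [if_neg g3]
        have := s.nn_pair b hxy g1
        omega

lemma bad_star (s : Star) {x y z : ℕ} (hxy : x ≠ y) (hxz : x ≠ z) (hyz : y ≠ z) (b : Bool)
    (h1 : s.isg x y → s.col b = y) (h2 : s.isg x z → s.col b = x)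
    (h3 : s.isg y z → s.col b = z) :
    s.nn b y + s.nn (!b) x ≤ s.m + 1 := by
  have hm := s.hm
  by_cases g1 : s.isg y x
  · rw [s.nn_isg b hxy.symm g1, h1 (isg_comm.1 g1), if_pos rfl]
    omega
  · exact s.nn_pair b hxy.symm g1

lemma cyc_dom {x y z : ℕ} (hxy : x ≠ y) (hxz : x ≠ z) (hyz : y ≠ z) {f : Fin n → Bool}
    (hf : Cyc S x y z f) :
    NN S f x + NN S (flip f) y + X S x z + X S y z ≤ NV S + X S x y := by
  unfold NN NV X
  rw [← Finset.sum_add_distrib, ← Finset.sum_add_distrib, ← Finset.sum_add_distrib,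
    ← Finset.sum_add_distrib]
  exact Finset.sum_le_sum fun i _ => dom_star (S i) hxy hxz hyz (f i) (hf i).1 (hf i).2.1
    (hf i).2.2

lemma cyc_bad {x y z : ℕ} (hxy : x ≠ y) (hxz : x ≠ z) (hyz : y ≠ z) {f : Fin n → Bool}
    (hf : Cyc S x y z f) : NN S f y + NN S (flip f) x ≤ NV S := by
  unfold NN NV
  rw [← Finset.sum_add_distrib]
  exact Finset.sum_le_sum fun i _ => bad_star (S i) hxy hxz hyz (f i) (hf i).1 (hf i).2.1
    (hf i).2.2

end bad

end Pool.Agent.R946.ES
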