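import Mathlib
import Pool.Agent.R946.ES.Solver

/-!
# Equitable choosability of unions of stars: the per-star inequality for the triangle case
-/

set_option autoImplicit false

open Finset

namespace Pool.Agent.R946.ES

lemma ind2 {u v x c y d : ℕ} (h1 : ¬ (x = y ∧ c = d)) (h2 : ¬ (x = d ∧ c = y)) :
    ind u v x c + ind u v y d ≤ 1 ∨ u = v := by
  unfold ind
  split_ifs <;> omega

lemma arith5 {i1 i2 i3 i4 i5 : ℕ} (a1 : i1 + i2 ≤ 1) (a2 : i1 + i3 ≤ 1) (a3 : i1 + i4 ≤ 1)
    (a4 : i2 + i3 ≤ 1) (a5 : i2 + i4 ≤ 1) (a6 : i3 + i4 ≤ 1) (b1 : i1 + i5 ≤ 1)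
    (b2 : i2 + i5 ≤ 1) (b3 : i3 + i5 ≤ 1) (b4 : i4 + i5 ≤ 1) :
    i1 + i2 + i3 + i4 + 4 * i5 ≤ 4 := by omega

lemma leaf5 {u v p q x y z w : ℕ} (huv : u ≠ v) (hpq : p ≠ q) (hxy : x ≠ y) (hxz : x ≠ z)
    (hyz : y ≠ z) (g1 : ¬ ((p = x ∧ q = y) ∨ (p = y ∧ q = x)))
    (g2 : ¬ ((p = x ∧ q = z) ∨ (p = z ∧ q = x))) (g3 : ¬ ((p = y ∧ q = z) ∨ (p = z ∧ q = y)))
    (hw : w = p ∨ w = q) :
    ind u v p x + ind u v q x + ind u v p y + ind u v q y + 4 * ind u v w z ≤ 4 := by
  have a1 := (ind2 (u := u) (v := v) (x := p) (c := x) (y := q) (d := x)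
    (fun h => hpq h.1) (fun h => hpq (h.1.trans h.2))).resolve_right huv
  have a2 := (ind2 (u := u) (v := v) (x := p) (c := x) (y := p) (d := y)
    (fun h => hxy h.2) (fun h => hxy (h.2.trans h.1))).resolve_right huv
  have a3 := (ind2 (u := u) (v := v) (x := p) (c := x) (y := q) (d := y)
    (fun h => hpq h.1) (fun h => g1 (Or.inr ⟨h.1, h.2.symm⟩))).resolve_right huv
  have a4 := (ind2 (u := u) (v := v) (x := q) (c := x) (y := p) (d := y)
    (fun h => hpq h.1.symm) (fun h => g1 (Or.inl ⟨h.2.symm, h.1⟩))).resolve_right huv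
  have a5 := (ind2 (u := u) (v := v) (x := q) (c := x) (y := q) (d := y)
    (fun h => hxy h.2) (fun h => hxy (h.2.trans h.1))).resolve_right huv
  have a6 := (ind2 (u := u) (v := v) (x := p) (c := y) (y := q) (d := y)
    (fun h => hpq h.1) (fun h => hpq (h.1.trans h.2))).resolve_right huv
  rcases hw with rfl | rfl
  · have b1 := (ind2 (u := u) (v := v) (x := w) (c := x) (y := w) (d := z)
      (fun h => hxz h.2) (fun h => hxz (h.2.trans h.1))).resolve_right huv
    have b2 := (ind2 (u := u) (v := v) (x := q) (c := x) (y := w) (d := z)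
      (fun h => hxz h.2) (fun h => g2 (Or.inl ⟨h.2.symm, h.1⟩))).resolve_right huv
    have b3 := (ind2 (u := u) (v := v) (x := w) (c := y) (y := w) (d := z)
      (fun h => hyz h.2) (fun h => hyz (h.2.trans h.1))).resolve_right huv
    have b4 := (ind2 (u := u) (v := v) (x := q) (c := y) (y := w) (d := z)
      (fun h => hyz h.2) (fun h => g3 (Or.inl ⟨h.2.symm, h.1⟩))).resolve_right huv
    exact arith5 a1 a2 a3 a4 a5 a6 b1 b2 b3 b4
  · have b1 := (ind2 (u := u) (v := v) (x := p) (c := x) (y := w) (d := z)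
      (fun h => hxz h.2) (fun h => g2 (Or.inr ⟨h.1, h.2.symm⟩))).resolve_right huv
    have b2 := (ind2 (u := u) (v := v) (x := w) (c := x) (y := w) (d := z)
      (fun h => hxz h.2) (fun h => hxz (h.2.trans h.1))).resolve_right huv
    have b3 := (ind2 (u := u) (v := v) (x := p) (c := y) (y := w) (d := z)
      (fun h => hyz h.2) (fun h => g3 (Or.inr ⟨h.1, h.2.symm⟩))).resolve_right huv
    have b4 := (ind2 (u := u) (v := v) (x := w) (c := y) (y := w) (d := z)
      (fun h => hyz h.2) (fun h => hyz (h.2.trans h.1))).resolve_right huv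
    exact arith5 a1 a2 a3 a4 a5 a6 b1 b2 b3 b4

lemma col_cases (s : Star) (t : Bool) {x z : ℕ} (g : s.isg x z) (hxz : x ≠ z) :
    s.nn t z = s.Y x z ∨ s.nn t z = 1 := by
  have k := s.Y_self z
  rcases g with ⟨g1, g1'⟩ | ⟨g1, g1'⟩ <;> cases t <;> simp [Star.nn, Star.col, g1, g1', hxz, k]

lemma other_col (s : Star) {x y : ℕ} (b : Bool) (g : s.isg x y) (h : s.col b = x) :
    s.col (!b) = y := by
  have hpq := s.hpq
  rcases g with ⟨g1, g2⟩ | ⟨g1, g2⟩
  · cases b
    · have h' : s.q = x := h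
      exact absurd (g1.trans h'.symm) hpq
    · exact g2
  · cases b
    · exact g1
    · have h' : s.p = x := h
      exact absurd (h'.trans g2.symm) hpq

lemma nn_cases (s : Star) (t : Bool) (z : ℕ) :
    s.nn t z = 1 ∨ ∃ w, (w = s.p ∨ w = s.q) ∧ s.nn t z = s.Y w z := by
  by_cases h : s.col t = z
  · left
    rw [Star.nn, if_pos h, h, s.Y_self]
  · right
    refine ⟨s.col t, ?_, ?_⟩
    · cases t
      · exact Or.inr rfl
      · exact Or.inl rfl
    · rw [Star.nn, if_neg h, zero_add]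

lemma centres (s : Star) (b : Bool) {x y : ℕ} (hxy : x ≠ y) :
    s.nn b x + s.nn (!b) y + s.nn (!b) x + s.nn b y ≤
      s.Y s.p x + s.Y s.q x + s.Y s.p y + s.Y s.q y + 2 := by
  have hpq := s.hpq
  cases b
  · show ((if s.q = x then 1 else 0) + s.Y s.q x) + ((if s.p = y then 1 else 0) + s.Y s.p y) +
      ((if s.p = x then 1 else 0) + s.Y s.p x) + ((if s.q = y then 1 else 0) + s.Y s.q y) ≤ _
    split_ifs <;> omega
  · show ((if s.p = x then 1 else 0) + s.Y s.p x) + ((if s.q = y then 1 else 0) + s.Y s.q y) +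
      ((if s.q = x then 1 else 0) + s.Y s.q x) + ((if s.p = y then 1 else 0) + s.Y s.p y) ≤ _
    split_ifs <;> omega

lemma arith6 {N Y4 m t : ℕ} (h1 : N ≤ Y4 + 2) (h2 : N ≤ m + 1) (hm : 1 ≤ m)
    (h : t = 1 ∨ Y4 + 4 * t ≤ 4 * m) : N + 4 * t ≤ 4 * (m + 1) := by omega

lemma final_none (s : Star) {x y z : ℕ} (hxy : x ≠ y) (hxz : x ≠ z) (hyz : y ≠ z) (b t : Bool)
    (g1 : ¬ s.isg x y) (g2 : ¬ s.isg x z) (g3 : ¬ s.isg y z) :
    s.nn b x + s.nn (!b) y + s.nn (!b) x + s.nn b y + 4 * s.nn t z ≤ 4 * (s.m + 1) := by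
  refine arith6 (centres s b hxy) (s.nn_four b hxy g1) s.hm ?_
  rcases nn_cases s t z with h | ⟨w, hw, h⟩
  · exact Or.inl h
  · right
    rw [h]
    have h1 := s.sum_bound (fun u v => ind u v s.p x + ind u v s.q x + ind u v s.p y +
      ind u v s.q y + 4 * ind u v w z) 4
      (fun u v huv => leaf5 huv s.hpq hxy hxz hyz g1 g2 g3 hw)
    simp only [Finset.sum_add_distrib, ← Finset.mul_sum] at h1
    exact h1

lemma final_star (s : Star) {x y z : ℕ} (hxy : x ≠ y) (hxz : x ≠ z) (hyz : y ≠ z) (b b' t : Bool)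
    (h1 : s.isg x y → s.col b = y) (h2 : s.isg x z → s.col b = x)
    (h3 : s.isg y z → s.col b = z)
    (hb : b' = if s.isg x y ∨ s.isg x z ∨ s.isg y z then b else !b) :
    s.nn b x + s.nn (!b) y + s.nn b' x + s.nn (!b') y + 4 * s.nn t z ≤ 4 * (s.m + 1) := by
  have hm := s.hm
  by_cases g1 : s.isg x y
  · rw [if_pos (Or.inl g1)] at hb
    rw [hb]
    have e := s.nn_isg b hxy g1
    rw [h1 g1, if_neg hxy.symm] at e
    have e2 : s.nn t z + s.Y x y ≤ s.m := by
      have k1 := s.Y2 (x := x) (c := y) (y := x) (d := z) (fun h => hyz h.2)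
        (fun h => hxz h.1)
      have k2 := s.Y2 (x := x) (c := y) (y := y) (d := z) (fun h => hyz h.2)
        (fun h => hxz h.1)
      have k3 : s.col t = x ∨ s.col t = y := by
        rcases g1 with ⟨g, g'⟩ | ⟨g, g'⟩ <;> cases t <;> simp [Star.col, g, g']
      rcases k3 with k3 | k3
      · rw [Star.nn, k3, if_neg hxz]
        omega
      · rw [Star.nn, k3, if_neg hyz]
        omega
    clear h1 h2 h3 g1 hb
    omega
  · by_cases g2 : s.isg x z
    · rw [if_pos (Or.inr (Or.inl g2))] at hb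
      rw [hb]
      have hc := h2 g2
      have hc' : s.col (!b) = z := other_col s b g2 hc
      have e1 : s.nn b x = 1 := by
        rw [Star.nn, hc, if_pos rfl, s.Y_self]
      have e2 : s.nn (!b) y = s.Y z y := by
        rw [Star.nn, hc', if_neg hyz.symm, zero_add]
      have k1 := s.Y2 (x := x) (c := z) (y := z) (d := y) (fun h => hxz h.1)
        (fun h => hxy h.1)
      rw [e1, e2]
      have e3 := col_cases s t g2 hxz
      clear h1 h2 h3 g1 g2 hb hc hc' e1 e2
      rcases e3 with e3 | e3 <;> rw [e3] <;> omega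
    · by_cases g3 : s.isg y z
      · rw [if_pos (Or.inr (Or.inr g3))] at hb
        rw [hb]
        have hc := h3 g3
        have hc' : s.col (!b) = y := other_col s b (isg_comm.1 g3) hc
        have e1 : s.nn b x = s.Y z x := by
          rw [Star.nn, hc, if_neg hxz.symm, zero_add]
        have e2 : s.nn (!b) y = 1 := by
          rw [Star.nn, hc', if_pos rfl, s.Y_self]
        have k1 := s.Y2 (x := y) (c := z) (y := z) (d := x) (fun h => hyz h.1)
          (fun h => hxy h.1.symm)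
        rw [e1, e2]
        have e3 := col_cases s t g3 hyz
        clear h1 h2 h3 g1 g2 hb hc hc' e1 e2
        rcases e3 with e3 | e3 <;> rw [e3] <;> omega
      · have hno : ¬ (s.isg x y ∨ s.isg x z ∨ s.isg y z) := by
          rintro (h | h | h)
          · exact g1 h
          · exact g2 h
          · exact g3 h
        rw [if_neg hno] at hb
        rw [hb, Bool.not_not]
        have := final_none s hxy hxz hyz b t g1 g2 g3
        exact this

end Pool.Agent.R946.ES
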