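import Mathlib
import Pool.Agent.R946.ES.Final

/-!
# Equitable choosability of unions of stars: the solver
-/

set_option autoImplicit false

open Finset

namespace Pool.Agent.R946.ES

variable {n : ℕ} {S : Fin n → Star} {cap : ℕ}

lemma X_comm (S : Fin n → Star) (x y : ℕ) : X S x y = X S y x := by
  unfold X
  refine Finset.sum_congr rfl fun i _ => ?_
  rw [(S i).Y_comm x y]
  simp only [isg_comm (x := x) (y := y)]

lemma cyc_cases (hcap : NV S ≤ 2 * cap) {x y z : ℕ} (hxy : x ≠ y) (hxz : x ≠ z) (hyz : y ≠ z)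
    {f : Fin n → Bool} (hf : Cyc S x y z f)
    (h : ∃ c d, (c = x ∨ c = y ∨ c = z) ∧ (d = x ∨ d = y ∨ d = z) ∧
      cap + 1 ≤ NN S f c ∧ cap + 1 ≤ NN S (flip f) d) :
    (X S x z + X S y z < X S x y ∧ cap + 1 ≤ NN S f x ∧ cap + 1 ≤ NN S (flip f) y) ∨
    X S x y + X S y z < X S x z ∨ X S x y + X S x z < X S y z := by
  have hf2 := hf.rot
  have hf3 := hf2.rot
  have d1 := cyc_dom hxy hxz hyz hf
  have d2 := cyc_dom hxz.symm hyz.symm hxy hf2
  have d3 := cyc_dom hyz hxy.symm hxz.symm hf3
  have b1 := cyc_bad hxy hxz hyz hf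
  have b2 := cyc_bad hxz.symm hyz.symm hxy hf2
  have b3 := cyc_bad hyz hxy.symm hxz.symm hf3
  have c1 := X_comm S z x
  have c2 := X_comm S z y
  have c3 := X_comm S y x
  obtain ⟨c, d, hc, hd, h1, h2⟩ := h
  have hne := same_ne hcap h1 h2
  clear hf hf2 hf3
  rcases hc with rfl | hc | hc
  · rcases hd with hd | rfl | hd
    · exact absurd hd.symm hne
    · left
      refine ⟨?_, h1, h2⟩
      omega
    · subst hd
      exfalso
      omega
  · subst hc
    rcases hd with hd | hd | hd
    · subst hd
      exfalso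
      omega
    · exact absurd hd.symm hne
    · subst hd
      right; right
      omega
  · subst hc
    rcases hd with hd | hd | hd
    · subst hd
      right; left
      omega
    · subst hd
      exfalso
      omega
    · exact absurd hd.symm hne

lemma no_dom (hcap : NV S ≤ 2 * cap) {x y z : ℕ} (hxy : x ≠ y) (hxz : x ≠ z) (hyz : y ≠ z)
    (hall : ∀ e, ∃ c d, (c = x ∨ c = y ∨ c = z) ∧ (d = x ∨ d = y ∨ d = z) ∧
      cap + 1 ≤ NN S e c ∧ cap + 1 ≤ NN S (flip e) d)
    (hdom : X S x z + X S y z < X S x y) {t : Fin n → Bool} (ht : cap + 1 ≤ NN S t z) :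
    False := by
  -- every cyclic configuration has `x` overloaded, and `y` in the opposite one
  have key : ∀ f, Cyc S x y z f → cap + 1 ≤ NN S f x ∧ cap + 1 ≤ NN S (flip f) y := by
    intro f hf
    rcases cyc_cases hcap hxy hxz hyz hf (hall f) with h | h | h
    · exact h.2
    · exfalso
      omega
    · exfalso
      omega
  obtain ⟨f, hf⟩ := exists_cyc S hxy hxz hyz
  let f' : Fin n → Bool := fun i =>
    if (S i).isg x y ∨ (S i).isg x z ∨ (S i).isg y z then f i else !(f i)
  have hf' : Cyc S x y z f' := by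
    intro i
    refine ⟨fun h => ?_, fun h => ?_, fun h => ?_⟩
    · show (S i).col (if (S i).isg x y ∨ (S i).isg x z ∨ (S i).isg y z then f i else !(f i)) = y
      rw [if_pos (Or.inl h)]
      exact (hf i).1 h
    · show (S i).col (if (S i).isg x y ∨ (S i).isg x z ∨ (S i).isg y z then f i else !(f i)) = x
      rw [if_pos (Or.inr (Or.inl h))]
      exact (hf i).2.1 h
    · show (S i).col (if (S i).isg x y ∨ (S i).isg x z ∨ (S i).isg y z then f i else !(f i)) = z
      rw [if_pos (Or.inr (Or.inr h))]
      exact (hf i).2.2 h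
  obtain ⟨k1, k2⟩ := key f hf
  obtain ⟨k3, k4⟩ := key f' hf'
  have hsum : NN S f x + NN S (flip f) y + NN S f' x + NN S (flip f') y + 4 * NN S t z ≤
      4 * NV S := by
    unfold NN NV
    rw [← Finset.sum_add_distrib, ← Finset.sum_add_distrib, ← Finset.sum_add_distrib,
      Finset.mul_sum, Finset.mul_sum, ← Finset.sum_add_distrib]
    exact Finset.sum_le_sum fun i _ => final_star (S i) hxy hxz hyz (f i) (f' i) (t i)
      (hf i).1 (hf i).2.1 (hf i).2.2 rfl
  omega

lemma no_triangle (hcap : NV S ≤ 2 * cap) {x y z : ℕ} (hxy : x ≠ y) (hxz : x ≠ z) (hyz : y ≠ z)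
    (hall : ∀ e, ∃ c d, (c = x ∨ c = y ∨ c = z) ∧ (d = x ∨ d = y ∨ d = z) ∧
      cap + 1 ≤ NN S e c ∧ cap + 1 ≤ NN S (flip e) d)
    (h1 : Used S cap x y) (h2 : Used S cap x z) : False := by
  obtain ⟨e1, he1, he1'⟩ := h1
  obtain ⟨e2, he2, he2'⟩ := h2
  obtain ⟨f, hf⟩ := exists_cyc S hxy hxz hyz
  have c1 := X_comm S z x
  have c2 := X_comm S z y
  have c3 := X_comm S y x
  rcases cyc_cases hcap hxy hxz hyz hf (hall f) with h | h | h
  · exact no_dom hcap hxy hxz hyz hall h.1 he2'
  · refine no_dom hcap hxz.symm hyz.symm hxy (fun e => ?_) (by omega) he1'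
    obtain ⟨c, d, hc, hd, h1, h2⟩ := hall e
    exact ⟨c, d, by tauto, by tauto, h1, h2⟩
  · refine no_dom hcap hyz hxy.symm hxz.symm (fun e => ?_) (by omega) he1
    obtain ⟨c, d, hc, hd, h1, h2⟩ := hall e
    exact ⟨c, d, by tauto, by tauto, h1, h2⟩

/-- the bound for the single pair -/
lemma single_star (s : Star) {x y : ℕ} (hxy : x ≠ y) (b b' : Bool)
    (hb : b' = if s.isg x y then b else !b) :
    s.nn b x + s.nn (!b) y + s.nn b' x + s.nn (!b') y ≤
      (if s.isg x y then (if s.col b = x then 4 else 4 * s.m) else s.m + 1) ∧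
    s.nn b x + s.nn (!b) y + s.nn b' y + s.nn (!b') x ≤ 2 * (s.m + 1) := by
  have hm := s.hm
  by_cases g : s.isg x y
  · rw [if_pos g] at hb
    rw [hb, if_pos g]
    have e := s.nn_isg b hxy g
    have e' := s.nn_isg b hxy.symm (isg_comm.1 g)
    have hle := s.Y_le x y
    have hc := s.Y_comm y x
    have h3 : s.col b = x ∨ s.col b = y := by
      rcases g with ⟨g, g'⟩ | ⟨g, g'⟩ <;> cases b <;> simp [Star.col, g, g']
    clear g hb
    rcases h3 with h3 | h3
    · rw [h3, if_pos rfl] at e
      rw [h3, if_neg hxy] at e'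
      rw [h3, if_pos rfl]
      omega
    · rw [h3, if_neg hxy.symm] at e
      rw [h3, if_pos rfl] at e'
      rw [h3, if_neg hxy.symm]
      omega
  · rw [if_neg g] at hb
    rw [hb, if_neg g, Bool.not_not]
    have k1 := s.nn_four b hxy g
    have k2 := s.nn_pair b hxy g
    have k3 := s.nn_pair (!b) hxy g
    rw [Bool.not_not] at k3
    clear g hb
    constructor <;> omega

/-- the signed sum of the numbers `m i - 1` over the stars in `A` -/
def sgn (m : Fin n → ℕ) (A : Finset (Fin n)) (s : Fin n → Bool) : ℤ :=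
  ∑ i ∈ A, (if s i then ((m i : ℤ) - 1) else -((m i : ℤ) - 1))

/-- every nonempty set of stars can be balanced well enough -/
def Cond (m : Fin n → ℕ) : Prop :=
  ∀ A : Finset (Fin n), A.Nonempty → ∃ s : Fin n → Bool,
    2 * |sgn m A s| ≤ (∑ i ∈ Aᶜ, ((m i : ℤ) + 1)) + 3

lemma no_single (hcap : NV S ≤ 2 * cap) (hcond : Cond (fun i => (S i).m)) {x y : ℕ}
    (hxy : x ≠ y)
    (hall : ∀ e, (cap + 1 ≤ NN S e x ∧ cap + 1 ≤ NN S (flip e) y) ∨
      (cap + 1 ≤ NN S e y ∧ cap + 1 ≤ NN S (flip e) x)) : False := by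
  classical
  let A : Finset (Fin n) := Finset.univ.filter fun i => (S i).isg x y
  have hA : ∀ i, i ∈ A ↔ (S i).isg x y := fun i => by simp [A]
  -- the group is nonempty
  have hne : A.Nonempty := by
    by_contra hcon
    rw [Finset.not_nonempty_iff_eq_empty] at hcon
    have hno : ∀ i, ¬ (S i).isg x y := by
      intro i hi
      have := (hA i).2 hi
      rw [hcon] at this
      exact absurd this (Finset.notMem_empty i)
    have b1 : ∀ (e : Fin n → Bool), NN S e x + NN S (flip e) y ≤ NV S := by
      intro e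
      unfold NN NV
      rw [← Finset.sum_add_distrib]
      exact Finset.sum_le_sum fun i _ => (S i).nn_pair (e i) hxy (hno i)
    have b2 : ∀ (e : Fin n → Bool), NN S e y + NN S (flip e) x ≤ NV S := by
      intro e
      unfold NN NV
      rw [← Finset.sum_add_distrib]
      exact Finset.sum_le_sum fun i _ => (S i).nn_pair (e i) hxy.symm
        (fun h => hno i (isg_comm.1 h))
    have k1 := b1 (fun _ => true)
    have k2 := b2 (fun _ => true)
    rcases hall (fun _ => true) with ⟨h1, h2⟩ | ⟨h1, h2⟩ <;> omega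
  obtain ⟨s, hs⟩ := hcond A hne
  -- the two configurations
  let e : Fin n → Bool := fun i => if s i then pick (S i) y else pick (S i) x
  let e' : Fin n → Bool := fun i => if (S i).isg x y then e i else !(e i)
  have hcol : ∀ i, (S i).isg x y → ((S i).col (e i) = if s i then y else x) := by
    intro i hi
    show (S i).col (if s i then pick (S i) y else pick (S i) x) = if s i then y else x
    cases s i
    · exact col_pick hi
    · exact col_pick (isg_comm.1 hi)
  have hx1 : NN S e x + NN S (flip e) y + NN S e' x + NN S (flip e') y ≤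
      ∑ i, (if (S i).isg x y then (if (S i).col (e i) = x then 4 else 4 * (S i).m)
        else (S i).m + 1) := by
    unfold NN
    rw [← Finset.sum_add_distrib, ← Finset.sum_add_distrib, ← Finset.sum_add_distrib]
    exact Finset.sum_le_sum fun i _ => (single_star (S i) hxy (e i) (e' i) rfl).1
  have hx2 : NN S e y + NN S (flip e) x + NN S e' y + NN S (flip e') x ≤
      ∑ i, (if (S i).isg y x then (if (S i).col (e i) = y then 4 else 4 * (S i).m)
        else (S i).m + 1) := by
    unfold NN
    rw [← Finset.sum_add_distrib, ← Finset.sum_add_distrib, ← Finset.sum_add_distrib]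
    refine Finset.sum_le_sum fun i _ => (single_star (S i) hxy.symm (e i) (e' i) ?_).1
    show (if (S i).isg x y then e i else !(e i)) = if (S i).isg y x then e i else !(e i)
    simp only [isg_comm (x := x) (y := y)]
  have hx3 : NN S e x + NN S (flip e) y + NN S e' y + NN S (flip e') x ≤ 2 * NV S := by
    unfold NN NV
    rw [← Finset.sum_add_distrib, ← Finset.sum_add_distrib, ← Finset.sum_add_distrib,
      Finset.mul_sum]
    exact Finset.sum_le_sum fun i _ => (single_star (S i) hxy (e i) (e' i) rfl).2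
  have hx4 : NN S e y + NN S (flip e) x + NN S e' x + NN S (flip e') y ≤ 2 * NV S := by
    unfold NN NV
    rw [← Finset.sum_add_distrib, ← Finset.sum_add_distrib, ← Finset.sum_add_distrib,
      Finset.mul_sum]
    refine Finset.sum_le_sum fun i _ => (single_star (S i) hxy.symm (e i) (e' i) ?_).2
    show (if (S i).isg x y then e i else !(e i)) = if (S i).isg y x then e i else !(e i)
    simp only [isg_comm (x := x) (y := y)]
  -- rewrite the bounds as integers
  have hsplit : ∀ f : Fin n → ℤ, ∑ i, f i = ∑ i ∈ A, f i + ∑ i ∈ Aᶜ, f i := fun f =>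
    (Finset.sum_add_sum_compl A f).symm
  have z1 : ((∑ i, (if (S i).isg x y then (if (S i).col (e i) = x then 4 else 4 * (S i).m)
        else (S i).m + 1) : ℕ) : ℤ) = 2 * (NV S : ℤ) + 2 * sgn (fun i => (S i).m) A s -
        ∑ i ∈ Aᶜ, (((S i).m : ℤ) + 1) := by
    unfold NV sgn
    push_cast
    rw [hsplit, hsplit (fun i => ((S i).m : ℤ) + 1), mul_add, Finset.mul_sum, Finset.mul_sum,
      Finset.mul_sum]
    have p1 : ∑ i ∈ A, (if (S i).isg x y then (if (S i).col (e i) = x then (4 : ℤ)
        else 4 * ((S i).m : ℤ)) else ((S i).m : ℤ) + 1) =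
        ∑ i ∈ A, (2 * (((S i).m : ℤ) + 1) +
          2 * (if s i then (((S i).m : ℤ) - 1) else -(((S i).m : ℤ) - 1))) := by
      refine Finset.sum_congr rfl fun i hi => ?_
      have hi' := (hA i).1 hi
      rw [if_pos hi', hcol i hi']
      cases s i
      · rw [if_neg (by simp : ¬ (false = true)), if_pos rfl, if_neg (by simp)]
        ring
      · rw [if_pos rfl, if_neg hxy.symm, if_pos rfl]
        ring
    have p2 : ∑ i ∈ Aᶜ, (if (S i).isg x y then (if (S i).col (e i) = x then (4 : ℤ)
        else 4 * ((S i).m : ℤ)) else ((S i).m : ℤ) + 1) =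
        ∑ i ∈ Aᶜ, (((S i).m : ℤ) + 1) := by
      refine Finset.sum_congr rfl fun i hi => ?_
      rw [Finset.mem_compl, hA] at hi
      rw [if_neg hi]
    rw [p1, p2, Finset.sum_add_distrib, ← Finset.mul_sum Aᶜ]
    ring
  have z2 : ((∑ i, (if (S i).isg y x then (if (S i).col (e i) = y then 4 else 4 * (S i).m)
        else (S i).m + 1) : ℕ) : ℤ) = 2 * (NV S : ℤ) - 2 * sgn (fun i => (S i).m) A s -
        ∑ i ∈ Aᶜ, (((S i).m : ℤ) + 1) := by
    unfold NV sgn
    push_cast
    rw [hsplit, hsplit (fun i => ((S i).m : ℤ) + 1), mul_add, Finset.mul_sum, Finset.mul_sum,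
      Finset.mul_sum]
    have p1 : ∑ i ∈ A, (if (S i).isg y x then (if (S i).col (e i) = y then (4 : ℤ)
        else 4 * ((S i).m : ℤ)) else ((S i).m : ℤ) + 1) =
        ∑ i ∈ A, (2 * (((S i).m : ℤ) + 1) -
          2 * (if s i then (((S i).m : ℤ) - 1) else -(((S i).m : ℤ) - 1))) := by
      refine Finset.sum_congr rfl fun i hi => ?_
      have hi' := (hA i).1 hi
      rw [if_pos (isg_comm.1 hi'), hcol i hi']
      cases s i
      · rw [if_neg (by simp : ¬ (false = true)), if_neg hxy, if_neg (by simp)]
        ring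
      · rw [if_pos rfl, if_pos rfl, if_pos rfl]
        ring
    have p2 : ∑ i ∈ Aᶜ, (if (S i).isg y x then (if (S i).col (e i) = y then (4 : ℤ)
        else 4 * ((S i).m : ℤ)) else ((S i).m : ℤ) + 1) =
        ∑ i ∈ Aᶜ, (((S i).m : ℤ) + 1) := by
      refine Finset.sum_congr rfl fun i hi => ?_
      rw [Finset.mem_compl, hA] at hi
      rw [if_neg (fun h => hi (isg_comm.1 h))]
    rw [p1, p2, Finset.sum_sub_distrib, ← Finset.mul_sum Aᶜ]
    ring
  have habs := abs_le.1 (le_refl |sgn (fun i => (S i).m) A s|)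
  obtain ⟨ha1, ha2⟩ := habs
  have hs' : 2 * |sgn (fun i => (S i).m) A s| ≤ (∑ i ∈ Aᶜ, (((S i).m : ℤ) + 1)) + 3 := hs
  rcases hall e with ⟨h1, h2⟩ | ⟨h1, h2⟩ <;> rcases hall e' with ⟨h3, h4⟩ | ⟨h3, h4⟩
  · have := Int.ofNat_le.2 hx1
    rw [z1] at this
    push_cast at this
    omega
  · omega
  · omega
  · have := Int.ofNat_le.2 hx2
    rw [z2] at this
    push_cast at this
    omega

/-- **The solver.** -/
theorem solver (hcap : NV S ≤ 2 * cap) (hcond : Cond (fun i => (S i).m)) :
    ∃ e : Fin n → Bool, ∀ c, NN S e c ≤ cap := by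
  by_contra hcon
  push Not at hcon
  have hbad : ∀ e, ∃ c d, cap + 1 ≤ NN S e c ∧ cap + 1 ≤ NN S (flip e) d := by
    intro e
    obtain ⟨c, hc⟩ := hcon e
    obtain ⟨d, hd⟩ := hcon (flip e)
    exact ⟨c, d, hc, hd⟩
  obtain ⟨x, y, hx, hy⟩ := hbad (fun _ => true)
  have hU : Used S cap x y := ⟨_, hx, hy⟩
  have hxy := hU.ne hcap
  by_cases hsing : ∀ e, (cap + 1 ≤ NN S e x ∧ cap + 1 ≤ NN S (flip e) y) ∨
      (cap + 1 ≤ NN S e y ∧ cap + 1 ≤ NN S (flip e) x)
  · exact no_single hcap hcond hxy hsing
  · push Not at hsing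
    obtain ⟨e, he1, he2⟩ := hsing
    obtain ⟨c, d, hc, hd⟩ := hbad e
    have hU2 : Used S cap c d := ⟨e, hc, hd⟩
    have hcd := hU2.ne hcap
    have hint := hU.inter hcap hU2
    -- the new pair is `{a, z}` with `a` one of `x`, `y` and `z` new
    have key : ∀ a b z, Used S cap a b → Used S cap a z → b ≠ z → False := by
      intro a b z u1 u2 hbz
      have hab := u1.ne hcap
      have haz := u2.ne hcap
      by_cases hstar : ∀ e, cap + 1 ≤ NN S e a ∨ cap + 1 ≤ NN S (flip e) a
      · exact no_star hcap hstar u1 u2 hbz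
      · push Not at hstar
        obtain ⟨f, hf1, hf2⟩ := hstar
        obtain ⟨c', d', hc', hd'⟩ := hbad f
        have hU3 : Used S cap c' d' := ⟨f, hc', hd'⟩
        have hc'a : c' ≠ a := by
          rintro rfl
          omega
        have hd'a : d' ≠ a := by
          rintro rfl
          omega
        have hcd' := hU3.ne hcap
        have i1 := u1.inter hcap hU3
        have i2 := u2.inter hcap hU3
        have hbzU : Used S cap b z := by
          rcases i1 with h | h | h | h
          · exact absurd h.symm hc'a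
          · exact absurd h.symm hd'a
          · rcases i2 with h' | h' | h' | h'
            · exact absurd h'.symm hc'a
            · exact absurd h'.symm hd'a
            · exact absurd (h.trans h'.symm) hbz
            · rw [h, h']
              exact hU3
          · rcases i2 with h' | h' | h' | h'
            · exact absurd h'.symm hc'a
            · exact absurd h'.symm hd'a
            · rw [h, h']
              exact hU3.symm
            · exact absurd (h.trans h'.symm) hbz
        refine no_triangle hcap hab haz hbz (fun g => ?_) u1 u2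
        obtain ⟨c, d, hc, hd⟩ := hbad g
        have hU4 : Used S cap c d := ⟨g, hc, hd⟩
        have hcd4 := hU4.ne hcap
        have j1 := u1.inter hcap hU4
        have j2 := u2.inter hcap hU4
        have j3 := hbzU.inter hcap hU4
        refine ⟨c, d, ?_, ?_, hc, hd⟩
        · clear hcap hcond hcon hbad hx hy hc hd hc' hd' i1 i2 he1 he2 hint
          omega
        · clear hcap hcond hcon hbad hx hy hc hd hc' hd' i1 i2 he1 he2 hint
          omega
    rcases hint with h | h | h | h
    · -- x = c
      subst h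
      by_cases hyd : y = d
      · subst hyd
        exact absurd hd (by have := he1 hc; omega)
      · exact key x y d hU hU2 hyd
    · -- x = d
      subst h
      by_cases hyc : y = c
      · subst hyc
        exact absurd hd (by have := he2 hc; omega)
      · exact key x y c hU hU2.symm hyc
    · -- y = c
      subst h
      by_cases hxd : x = d
      · subst hxd
        exact absurd hd (by have := he2 hc; omega)
      · exact key y x d hU.symm hU2 hxd
    · -- y = d
      subst h
      by_cases hxc : x = c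
      · subst hxc
        exact absurd hd (by have := he1 hc; omega)
      · exact key y x c hU.symm hU2.symm hxc

end Pool.Agent.R946.ES
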