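import Mathlib
import Pool.Agent.R946.ES.Defs
import Pool.Agent.R946.ES.Tri

/-!
# Completing the colouring by Hall's theorem
-/

set_option autoImplicit false

open Finset

namespace Pool.Agent.R946.ES

lemma card_vertices {n : ℕ} (m : Fin n → ℕ) :
    Fintype.card (Σ i : Fin n, Option (Fin (m i))) = ∑ i, (m i + 1) := by
  rw [Fintype.card_sigma]
  simp

lemma ceil_bounds (N : ℕ) : N ≤ 2 * ⌈(N : ℚ) / (2 : ℕ)⌉₊ ∧ 2 * ⌈(N : ℚ) / (2 : ℕ)⌉₊ ≤ N + 1 := by
  have h1 := Nat.le_ceil ((N : ℚ) / (2 : ℕ))
  have h2 := Nat.ceil_lt_add_one (a := (N : ℚ) / (2 : ℕ)) (by positivity)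
  constructor
  · have : (N : ℚ) ≤ 2 * (⌈(N : ℚ) / (2 : ℕ)⌉₊ : ℚ) := by
      push_cast at h1 ⊢
      linarith
    exact_mod_cast this
  · have : 2 * (⌈(N : ℚ) / (2 : ℕ)⌉₊ : ℚ) < (N : ℚ) + 2 := by
      push_cast at h2 ⊢
      linarith
    have h3 : 2 * ⌈(N : ℚ) / (2 : ℕ)⌉₊ < N + 2 := by exact_mod_cast this
    omega

lemma leaf_avail {u v a c : ℕ} (huv : u ≠ v) :
    (if (({u, v} : Finset ℕ).erase a) = {c} then 1 else 0) ≤ ind u v a c := by
  unfold ind
  split_ifs with h1 h2
  · exact le_rfl
  · exfalso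
    apply h2
    have hu : u ∈ ({u, v} : Finset ℕ).erase a ↔ u ∈ ({c} : Finset ℕ) := by rw [h1]
    have hv : v ∈ ({u, v} : Finset ℕ).erase a ↔ v ∈ ({c} : Finset ℕ) := by rw [h1]
    simp only [Finset.mem_erase, Finset.mem_insert, Finset.mem_singleton, true_or, or_true,
      and_true] at hu hv
    by_cases h3 : u = a
    · left
      refine ⟨h3, ?_⟩
      apply hv.1
      intro h4
      exact huv (h3.trans h4.symm)
    · have h5 := hu.1 h3
      right
      refine ⟨h5, ?_⟩
      by_contra h6
      have h7 := hv.1 h6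
      exact huv (h5.trans h7.symm)
  · exact Nat.zero_le _
  · exact Nat.zero_le _

theorem eqch_of_cond {n : ℕ} (m : Fin n → ℕ) (hm : ∀ i, 1 ≤ m i) (hcond : Cond m) :
    EquitablyChoosable (stars m) 2 := by
  classical
  intro L hL
  have hcen : ∀ i : Fin n, ∃ a b : ℕ, a ≠ b ∧ L ⟨i, none⟩ = {a, b} := fun i =>
    Finset.card_eq_two.1 (hL _)
  have hlea : ∀ (i : Fin n) (l : Fin (m i)), ∃ a b : ℕ, a ≠ b ∧ L ⟨i, some l⟩ = {a, b} :=
    fun i l => Finset.card_eq_two.1 (hL _)
  choose p q hpq hc using hcen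
  choose u v huv hl using hlea
  let S : Fin n → Star := fun i => ⟨m i, p i, q i, u i, v i, hm i, hpq i, huv i⟩
  have hNV : NV S = Fintype.card (Σ i : Fin n, Option (Fin (m i))) := by
    rw [card_vertices]
    rfl
  obtain ⟨hb1, _⟩ := ceil_bounds (Fintype.card (Σ i : Fin n, Option (Fin (m i))))
  set cap := ⌈((Fintype.card (Σ i : Fin n, Option (Fin (m i))) : ℕ) : ℚ) / (2 : ℕ)⌉₊ with hcapdef
  obtain ⟨e, he⟩ := solver (S := S) (cap := cap) (by rw [hNV]; exact hb1) hcond
  let C : Fin n → ℕ := fun i => (S i).col (e i)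
  have hCmem : ∀ i, C i ∈ L ⟨i, none⟩ := by
    intro i
    rw [hc i]
    show (if e i then p i else q i) ∈ ({p i, q i} : Finset ℕ)
    split_ifs <;> simp
  let av : (Σ i : Fin n, Option (Fin (m i))) → Finset ℕ := fun w =>
    match w with
    | ⟨i, none⟩ => {C i}
    | ⟨i, some l⟩ => (L ⟨i, some l⟩).erase (C i)
  have hav : ∀ w, (av w).Nonempty := by
    rintro ⟨i, _ | l⟩
    · exact Finset.singleton_nonempty _
    · rw [← Finset.card_pos]
      have h := Finset.pred_card_le_card_erase (s := L ⟨i, some l⟩) (a := C i)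
      rw [hL] at h
      exact lt_of_lt_of_le (by norm_num) h
  have hcount : ∀ c, (Finset.univ.filter fun w => av w = {c}).card ≤ cap := by
    intro c
    refine le_trans ?_ (he c)
    rw [Finset.card_filter, Fintype.sum_sigma]
    unfold NN
    refine Finset.sum_le_sum fun i _ => ?_
    rw [Fintype.sum_option]
    show (if ({C i} : Finset ℕ) = {c} then 1 else 0) +
      ∑ l, (if (L ⟨i, some l⟩).erase (C i) = {c} then 1 else 0) ≤
      (if C i = c then 1 else 0) + ∑ l, ind (u i l) (v i l) (C i) c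
    refine add_le_add ?_ (Finset.sum_le_sum fun l _ => ?_)
    · by_cases h : C i = c
      · rw [if_pos h]
        split_ifs <;> simp
      · rw [if_neg h, if_neg (fun h' => h (Finset.singleton_inj.1 h'))]
    · rw [hl i l]
      exact leaf_avail (huv i l)
  -- Hall's theorem
  let t : (Σ i : Fin n, Option (Fin (m i))) → Finset (ℕ × Fin cap) := fun w =>
    av w ×ˢ Finset.univ
  have hall : ∀ s : Finset (Σ i : Fin n, Option (Fin (m i))), s.card ≤ (s.biUnion t).card := by
    intro s
    have hsub : (s.biUnion av) ×ˢ (Finset.univ : Finset (Fin cap)) ⊆ s.biUnion t := by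
      intro x hx
      rw [Finset.mem_product, Finset.mem_biUnion] at hx
      obtain ⟨⟨w, hw, hx1⟩, hx2⟩ := hx
      rw [Finset.mem_biUnion]
      exact ⟨w, hw, Finset.mem_product.2 ⟨hx1, hx2⟩⟩
    have hcard := Finset.card_le_card hsub
    rw [Finset.card_product, Finset.card_univ, Fintype.card_fin] at hcard
    refine le_trans ?_ hcard
    rcases Nat.lt_or_ge (s.biUnion av).card 2 with h | h
    · interval_cases hh : (s.biUnion av).card
      · rw [Finset.card_eq_zero] at hh
        have : s = ∅ := by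
          rw [Finset.eq_empty_iff_forall_notMem]
          intro w hw
          obtain ⟨a, ha⟩ := hav w
          have : a ∈ s.biUnion av := Finset.mem_biUnion.2 ⟨w, hw, ha⟩
          rw [hh] at this
          exact absurd this (Finset.notMem_empty a)
        rw [this]
        simp
      · obtain ⟨a, ha⟩ := Finset.card_eq_one.1 hh
        have hs : s ⊆ Finset.univ.filter fun w => av w = {a} := by
          intro w hw
          rw [Finset.mem_filter]
          refine ⟨Finset.mem_univ _, ?_⟩
          have h1 : av w ⊆ {a} := by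
            rw [← ha]
            exact Finset.subset_biUnion_of_mem av hw
          exact (Finset.subset_singleton_iff.1 h1).resolve_left (hav w).ne_empty
        rw [one_mul]
        exact (Finset.card_le_card hs).trans (hcount a)
    · calc s.card ≤ Fintype.card (Σ i : Fin n, Option (Fin (m i))) := Finset.card_le_univ s
        _ ≤ 2 * cap := hb1
        _ ≤ (s.biUnion av).card * cap := Nat.mul_le_mul_right _ h
  obtain ⟨f, hf1, hf2⟩ := (Finset.all_card_le_biUnion_card_iff_exists_injective t).1 hall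
  have hf3 : ∀ w, (f w).1 ∈ av w := fun w => (Finset.mem_product.1 (hf2 w)).1
  refine ⟨fun w => (f w).1, ?_, ?_, ?_⟩
  · rintro ⟨i, _ | l⟩
    · have h := hf3 ⟨i, none⟩
      change (f ⟨i, none⟩).1 ∈ ({C i} : Finset ℕ) at h
      rw [Finset.mem_singleton] at h
      show (f ⟨i, none⟩).1 ∈ _
      rw [h]
      exact hCmem i
    · exact Finset.mem_of_mem_erase (hf3 ⟨i, some l⟩)
  · have hadj : ∀ (i : Fin n) (l : Fin (m i)), (f ⟨i, none⟩).1 ≠ (f ⟨i, some l⟩).1 := by
      intro i l
      have h := hf3 ⟨i, none⟩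
      change (f ⟨i, none⟩).1 ∈ ({C i} : Finset ℕ) at h
      rw [Finset.mem_singleton] at h
      have h2 := hf3 ⟨i, some l⟩
      change (f ⟨i, some l⟩).1 ∈ (L ⟨i, some l⟩).erase (C i) at h2
      rw [h]
      exact (Finset.ne_of_mem_erase h2).symm
    rintro ⟨i, x⟩ ⟨j, y⟩ ⟨h1, h2⟩
    change i = j at h1
    subst h1
    rcases x with _ | l <;> rcases y with _ | l'
    · exact absurd rfl h2
    · exact hadj i l'
    · exact (hadj i l).symm
    · exact absurd rfl h2
  · intro a
    have : (Finset.univ.filter fun w => (f w).1 = a).card ≤ (Finset.univ : Finset (Fin cap)).card := by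
      refine Finset.card_le_card_of_injOn (fun w => (f w).2) (fun w _ => Finset.mem_univ _) ?_
      intro w hw w' hw' h
      simp only [Finset.coe_filter, Finset.mem_univ, true_and, Set.mem_ofPred_eq] at hw hw'
      exact hf1 (Prod.ext (hw.trans hw'.symm) h)
    rw [Finset.card_univ, Fintype.card_fin] at this
    exact this

end Pool.Agent.R946.ES
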