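import Mathlib
import Pool.Agent.R946.ES.Complete

/-!
# List assignments with no equitable colouring
-/

set_option autoImplicit false

open Finset

namespace Pool.Agent.R946.ES

variable {n : ℕ}

lemma count_mod (m r : ℕ) (hr : r < 4) :
    m / 4 ≤ (Finset.univ.filter fun l : Fin m => l.val % 4 = r).card := by
  have h : (Finset.univ : Finset (Fin (m / 4))).card ≤
      (Finset.univ.filter fun l : Fin m => l.val % 4 = r).card := by
    refine Finset.card_le_card_of_injOn (fun t => ⟨4 * t.val + r, by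
      have := t.2
      omega⟩) ?_ ?_
    · intro t _
      simp only [Finset.coe_filter, Finset.mem_univ, true_and, Set.mem_ofPred_eq]
      omega
    · intro t _ t' _ h
      simp only [Fin.mk.injEq] at h
      exact Fin.ext (by omega)
  rwa [Finset.card_univ, Fintype.card_fin] at h

/-- the lists -/
def advL (m : Fin n → ℕ) (a : Fin n → Bool) : (Σ i : Fin n, Option (Fin (m i))) → Finset ℕ
  | ⟨i, none⟩ => if a i then {1, 2} else {3, 4}
  | ⟨i, some l⟩ => if a i then {1, 2} else
      if l.val % 4 = 0 then {3, 1} else if l.val % 4 = 1 then {3, 2} else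
        if l.val % 4 = 2 then {4, 1} else {4, 2}

lemma advL_card (m : Fin n → ℕ) (a : Fin n → Bool) (v : Σ i : Fin n, Option (Fin (m i))) :
    (advL m a v).card = 2 := by
  rcases v with ⟨i, _ | l⟩
  · rw [advL]
    split_ifs <;> rfl
  · rw [advL]
    split_ifs <;> rfl

lemma adv (m : Fin n → ℕ) (h : EquitablyChoosable (stars m) 2) (a : Fin n → Bool) :
    ∃ s : Fin n → Bool,
      2 * (∑ i, (if a i then (if s i then ((m i : ℤ) - 1) else -((m i : ℤ) - 1)) else 0)) ≤
        (∑ i, (if a i then 0 else ((m i : ℤ) + 5))) + 2 ∧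
      -(2 * (∑ i, (if a i then (if s i then ((m i : ℤ) - 1) else -((m i : ℤ) - 1)) else 0))) ≤
        (∑ i, (if a i then 0 else ((m i : ℤ) + 5))) + 2 := by
  classical
  obtain ⟨c, hc1, hc2, hc3⟩ := h (advL m a) (advL_card m a)
  obtain ⟨_, hb⟩ := ceil_bounds (Fintype.card (Σ i : Fin n, Option (Fin (m i))))
  set cap := ⌈((Fintype.card (Σ i : Fin n, Option (Fin (m i))) : ℕ) : ℚ) / (2 : ℕ)⌉₊ with hcapdef
  rw [card_vertices] at hb
  have hcount : ∀ t, ∑ i, ((if c ⟨i, none⟩ = t then 1 else 0) +
      ∑ l, (if c ⟨i, some l⟩ = t then 1 else 0)) ≤ cap := by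
    intro t
    refine le_trans (le_of_eq ?_) (hc3 t)
    rw [Finset.card_filter, Fintype.sum_sigma]
    refine Finset.sum_congr rfl fun i _ => ?_
    rw [Fintype.sum_option]
  have hadj : ∀ (i : Fin n) (l : Fin (m i)), c ⟨i, none⟩ ≠ c ⟨i, some l⟩ := fun i l =>
    hc2 _ _ ⟨rfl, by simp⟩
  let s : Fin n → Bool := fun i => decide (c ⟨i, none⟩ = 2)
  -- lower bounds in a star of the first kind
  have hA : ∀ i, a i = true → (if s i then m i else 1) ≤ ((if c ⟨i, none⟩ = 1 then 1 else 0) +
      ∑ l, (if c ⟨i, some l⟩ = 1 then 1 else 0)) ∧ (if s i then 1 else m i) ≤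
      ((if c ⟨i, none⟩ = 2 then 1 else 0) + ∑ l, (if c ⟨i, some l⟩ = 2 then 1 else 0)) := by
    intro i hi
    have h0 := hc1 ⟨i, none⟩
    rw [advL, if_pos hi, Finset.mem_insert, Finset.mem_singleton] at h0
    have hl : ∀ l : Fin (m i), c ⟨i, some l⟩ = 1 ∨ c ⟨i, some l⟩ = 2 := by
      intro l
      have h1 := hc1 ⟨i, some l⟩
      rwa [advL, if_pos hi, Finset.mem_insert, Finset.mem_singleton] at h1
    rcases h0 with h0 | h0
    · have hs : s i = false := by
        show decide (c ⟨i, none⟩ = 2) = false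
        rw [h0]
        decide
      have h2 : ∀ l : Fin (m i), c ⟨i, some l⟩ = 2 := by
        intro l
        have := hadj i l
        rcases hl l with h | h
        · rw [h0, h] at this
          exact absurd rfl this
        · exact h
      rw [hs, h0]
      refine ⟨by simp, ?_⟩
      simp [h2]
    · have hs : s i = true := by
        show decide (c ⟨i, none⟩ = 2) = true
        rw [h0]
        decide
      have h2 : ∀ l : Fin (m i), c ⟨i, some l⟩ = 1 := by
        intro l
        have := hadj i l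
        rcases hl l with h | h
        · exact h
        · rw [h0, h] at this
          exact absurd rfl this
      rw [hs, h0]
      refine ⟨?_, by simp⟩
      simp [h2]
  -- lower bounds in a star of the second kind
  have hB : ∀ i, a i = false → m i / 4 ≤ ((if c ⟨i, none⟩ = 1 then 1 else 0) +
      ∑ l, (if c ⟨i, some l⟩ = 1 then 1 else 0)) ∧ m i / 4 ≤
      ((if c ⟨i, none⟩ = 2 then 1 else 0) + ∑ l, (if c ⟨i, some l⟩ = 2 then 1 else 0)) := by
    intro i hi
    have hi' : ¬ (a i = true) := by rw [hi]; decide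
    have h0 := hc1 ⟨i, none⟩
    rw [advL, if_neg hi', Finset.mem_insert, Finset.mem_singleton] at h0
    have hl : ∀ l : Fin (m i), c ⟨i, some l⟩ ∈ (if l.val % 4 = 0 then ({3, 1} : Finset ℕ) else
        if l.val % 4 = 1 then {3, 2} else if l.val % 4 = 2 then {4, 1} else {4, 2}) := by
      intro l
      have h1 := hc1 ⟨i, some l⟩
      rwa [advL, if_neg hi'] at h1
    have key : ∀ (t r : ℕ), r < 4 → (∀ l : Fin (m i), l.val % 4 = r → c ⟨i, some l⟩ = t) →
        m i / 4 ≤ (if c ⟨i, none⟩ = t then 1 else 0) +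
          ∑ l, (if c ⟨i, some l⟩ = t then 1 else 0) := by
      intro t r hr hlr
      refine le_trans (count_mod (m i) r hr) ?_
      rw [Finset.card_filter]
      refine le_trans (Finset.sum_le_sum fun l _ => ?_) (Nat.le_add_left _ _)
      by_cases h : l.val % 4 = r
      · rw [if_pos h, if_pos (hlr l h)]
      · rw [if_neg h]
        exact Nat.zero_le _
    rcases h0 with h0 | h0
    · refine ⟨key 1 0 (by norm_num) fun l hlr => ?_, key 2 1 (by norm_num) fun l hlr => ?_⟩
      · have h1 := hl l
        rw [if_pos hlr, Finset.mem_insert, Finset.mem_singleton] at h1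
        have h2 := hadj i l
        rw [h0] at h2
        exact h1.resolve_left fun h => h2 h.symm
      · have h1 := hl l
        rw [if_neg (by omega), if_pos hlr, Finset.mem_insert, Finset.mem_singleton] at h1
        have h2 := hadj i l
        rw [h0] at h2
        exact h1.resolve_left fun h => h2 h.symm
    · refine ⟨key 1 2 (by norm_num) fun l hlr => ?_, key 2 3 (by norm_num) fun l hlr => ?_⟩
      · have h1 := hl l
        rw [if_neg (by omega), if_neg (by omega), if_pos hlr, Finset.mem_insert,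
          Finset.mem_singleton] at h1
        have h2 := hadj i l
        rw [h0] at h2
        exact h1.resolve_left fun h => h2 h.symm
      · have h1 := hl l
        rw [if_neg (by omega), if_neg (by omega), if_neg (by omega), Finset.mem_insert,
          Finset.mem_singleton] at h1
        have h2 := hadj i l
        rw [h0] at h2
        exact h1.resolve_left fun h => h2 h.symm
  -- sum up
  have g1 : ∑ i, (if a i then (if s i then m i else 1) else m i / 4) ≤ cap := by
    refine le_trans (Finset.sum_le_sum fun i _ => ?_) (hcount 1)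
    by_cases hi : a i = true
    · rw [if_pos hi]
      exact (hA i hi).1
    · rw [if_neg hi]
      exact (hB i (by simpa using hi)).1
  have g2 : ∑ i, (if a i then (if s i then 1 else m i) else m i / 4) ≤ cap := by
    refine le_trans (Finset.sum_le_sum fun i _ => ?_) (hcount 2)
    by_cases hi : a i = true
    · rw [if_pos hi]
      exact (hA i hi).2
    · rw [if_neg hi]
      exact (hB i (by simpa using hi)).2
  have k1 : 2 * (∑ i, ((m i : ℤ) + 1)) +
      2 * (∑ i, (if a i then (if s i then ((m i : ℤ) - 1) else -((m i : ℤ) - 1)) else 0)) -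
      (∑ i, (if a i then 0 else ((m i : ℤ) + 5))) ≤
      4 * ((∑ i, (if a i then (if s i then m i else 1) else m i / 4) : ℕ) : ℤ) := by
    rw [Nat.cast_sum, Finset.mul_sum, Finset.mul_sum, Finset.mul_sum, ← Finset.sum_add_distrib,
      ← Finset.sum_sub_distrib]
    refine Finset.sum_le_sum fun i _ => ?_
    cases a i <;> cases s i <;> simp only [if_true, if_false, Bool.false_eq_true] <;>
      push_cast <;> omega
  have k2 : 2 * (∑ i, ((m i : ℤ) + 1)) -
      2 * (∑ i, (if a i then (if s i then ((m i : ℤ) - 1) else -((m i : ℤ) - 1)) else 0)) -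
      (∑ i, (if a i then 0 else ((m i : ℤ) + 5))) ≤
      4 * ((∑ i, (if a i then (if s i then 1 else m i) else m i / 4) : ℕ) : ℤ) := by
    rw [Nat.cast_sum, Finset.mul_sum, Finset.mul_sum, Finset.mul_sum, ← Finset.sum_sub_distrib,
      ← Finset.sum_sub_distrib]
    refine Finset.sum_le_sum fun i _ => ?_
    cases a i <;> cases s i <;> simp only [if_true, if_false, Bool.false_eq_true] <;>
      push_cast <;> omega
  have hb' : 2 * (cap : ℤ) ≤ (∑ i, ((m i : ℤ) + 1)) + 1 := by
    have : ((2 * cap : ℕ) : ℤ) ≤ ((∑ i, (m i + 1) + 1 : ℕ) : ℤ) := Int.ofNat_le.2 hb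
    push_cast at this
    exact this
  have g1' := Int.ofNat_le.2 g1
  have g2' := Int.ofNat_le.2 g2
  refine ⟨s, ?_, ?_⟩
  · linarith
  · linarith

lemma adv_perm (m : Fin n → ℕ) (h : EquitablyChoosable (stars m) 2) (σ : Equiv.Perm (Fin n))
    (a : Fin n → Bool) : ∃ s : Fin n → Bool,
      2 * (∑ i, (if a i then (if s i then ((m (σ i) : ℤ) - 1) else -((m (σ i) : ℤ) - 1)) else 0))
        ≤ (∑ i, (if a i then 0 else ((m (σ i) : ℤ) + 5))) + 2 ∧
      -(2 * (∑ i, (if a i then (if s i then ((m (σ i) : ℤ) - 1) else -((m (σ i) : ℤ) - 1))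
        else 0))) ≤ (∑ i, (if a i then 0 else ((m (σ i) : ℤ) + 5))) + 2 := by
  obtain ⟨s, h1, h2⟩ := adv m h (fun i => a (σ.symm i))
  refine ⟨fun i => s (σ i), ?_, ?_⟩
  · rw [← Equiv.sum_comp σ, ← Equiv.sum_comp σ (fun i => if a (σ.symm i) = true then (0 : ℤ)
      else (m i : ℤ) + 5)] at h1
    simpa using h1
  · rw [← Equiv.sum_comp σ, ← Equiv.sum_comp σ (fun i => if a (σ.symm i) = true then (0 : ℤ)
      else (m i : ℤ) + 5)] at h2
    simpa using h2

lemma bound_two (m : Fin 2 → ℕ) (h : EquitablyChoosable (stars m) 2) (i : Fin 2) : m i ≤ 100 := by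
  have hmono := Tuple.monotone_sort m
  set σ := Tuple.sort m
  have m1 : m (σ 0) ≤ m (σ 1) := hmono (by decide)
  obtain ⟨s, h1, h2⟩ := adv_perm m h σ ![false, true]
  simp only [Fin.sum_univ_two, Matrix.cons_val_zero, Matrix.cons_val_one, Bool.false_eq_true,
    if_false, if_true] at h1 h2
  have hb : m (σ 1) ≤ 100 := by
    cases hs : s 1 <;> simp only [hs, if_true, if_false, Bool.false_eq_true] at h1 h2 <;> omega
  obtain ⟨j, rfl⟩ := σ.surjective i
  fin_cases j
  · exact m1.trans hb
  · exact hb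

lemma bound_three (m : Fin 3 → ℕ) (h : EquitablyChoosable (stars m) 2) (i : Fin 3) :
    m i ≤ 100 := by
  have hmono := Tuple.monotone_sort m
  set σ := Tuple.sort m
  have m1 : m (σ 0) ≤ m (σ 1) := hmono (by decide)
  have m2 : m (σ 1) ≤ m (σ 2) := hmono (by decide)
  obtain ⟨s, h1, h2⟩ := adv_perm m h σ ![false, false, true]
  obtain ⟨t, h3, h4⟩ := adv_perm m h σ ![true, true, true]
  simp [Fin.sum_univ_three] at h1 h2 h3 h4
  have hb : m (σ 2) ≤ 100 := by
    have hh : 2 * (m (σ 2) : ℤ) ≤ m (σ 0) + m (σ 1) + 14 := by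
      cases hs : s 2 <;> simp [hs] at h1 h2 <;> omega
    clear h1 h2
    generalize m (σ 0) = x0 at *
    generalize m (σ 1) = x1 at *
    generalize m (σ 2) = x2 at *
    cases ht0 : t 0 <;> cases ht1 : t 1 <;> cases ht2 : t 2 <;>
      simp [ht0, ht1, ht2] at h3 h4 <;> omega
  obtain ⟨j, rfl⟩ := σ.surjective i
  fin_cases j
  · exact (m1.trans m2).trans hb
  · exact m2.trans hb
  · exact hb

lemma bound_four (m : Fin 4 → ℕ) (h : EquitablyChoosable (stars m) 2) (i : Fin 4) :
    m i ≤ 100 := by
  have hmono := Tuple.monotone_sort m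
  set σ := Tuple.sort m
  have m1 : m (σ 0) ≤ m (σ 1) := hmono (by decide)
  have m2 : m (σ 1) ≤ m (σ 2) := hmono (by decide)
  have m3 : m (σ 2) ≤ m (σ 3) := hmono (by decide)
  obtain ⟨s, h1, h2⟩ := adv_perm m h σ ![false, false, false, true]
  obtain ⟨t, h3, h4⟩ := adv_perm m h σ ![true, true, true, true]
  obtain ⟨u, h5, h6⟩ := adv_perm m h σ ![false, true, true, true]
  simp [Fin.sum_univ_four] at h1 h2 h3 h4 h5 h6
  have hb : m (σ 3) ≤ 100 := by
    have hh : 2 * (m (σ 3) : ℤ) ≤ m (σ 0) + m (σ 1) + m (σ 2) + 19 := by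
      cases hs : s 3 <;> simp [hs] at h1 h2 <;> omega
    clear h1 h2
    generalize m (σ 0) = x0 at *
    generalize m (σ 1) = x1 at *
    generalize m (σ 2) = x2 at *
    generalize m (σ 3) = x3 at *
    by_contra hcon
    cases ht0 : t 0 <;> cases ht1 : t 1 <;> cases ht2 : t 2 <;> cases ht3 : t 3 <;>
      simp [ht0, ht1, ht2, ht3] at h3 h4 <;>
      first
        | (exfalso; omega)
        | (cases hu1 : u 1 <;> cases hu2 : u 2 <;> cases hu3 : u 3 <;>
            simp [hu1, hu2, hu3] at h5 h6 <;> omega)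
  obtain ⟨j, rfl⟩ := σ.surjective i
  fin_cases j
  · exact ((m1.trans m2).trans m3).trans hb
  · exact (m2.trans m3).trans hb
  · exact m3.trans hb
  · exact hb

end Pool.Agent.R946.ES
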