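import Mathlib
import Pool.Agent.R946.ES.Complete

/-!
# Infinitely many equitably 2-choosable unions of `n ≥ 5` stars
-/

set_option autoImplicit false

open Finset

namespace Pool.Agent.R946.ES

variable {n : ℕ}

/-- the sizes of the stars -/
def fam (n k : ℕ) : Fin n → ℕ := fun i => if i.val < 2 then 3 * k + 1 else 2 * k + 1

lemma sum_split (hn : 2 ≤ n) (A : Finset (Fin n)) (g : Fin n → ℤ) :
    ∑ i ∈ A, g i = (if (⟨0, by omega⟩ : Fin n) ∈ A then g ⟨0, by omega⟩ else 0) +
      (if (⟨1, by omega⟩ : Fin n) ∈ A then g ⟨1, by omega⟩ else 0) +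
      ∑ i ∈ A.filter (fun i => ¬ i.val < 2), g i := by
  classical
  rw [← Finset.sum_filter_add_sum_filter_not A (fun i => i.val < 2) g]
  congr 1
  have h : A.filter (fun i => i.val < 2) =
      ({(⟨0, by omega⟩ : Fin n), ⟨1, by omega⟩} : Finset (Fin n)).filter (fun i => i ∈ A) := by
    ext i
    simp only [Finset.mem_filter, Finset.mem_insert, Finset.mem_singleton, Fin.ext_iff]
    constructor
    · rintro ⟨h1, h2⟩
      exact ⟨by omega, h1⟩
    · rintro ⟨h1, h2⟩
      exact ⟨h2, by omega⟩
  rw [h, Finset.sum_filter, Finset.sum_pair]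
  intro h
  rw [Fin.ext_iff] at h
  simp at h

lemma card_ge (hn : 2 ≤ n) (A : Finset (Fin n)) :
    (A.filter (fun i : Fin n => ¬ i.val < 2)).card +
      (Aᶜ.filter (fun i : Fin n => ¬ i.val < 2)).card + 2 = n := by
  classical
  have h1 : (Finset.univ.filter (fun i : Fin n => i.val < 2)).card = 2 := by
    have h : (Finset.univ.filter (fun i : Fin n => i.val < 2)) =
        ({(⟨0, by omega⟩ : Fin n), ⟨1, by omega⟩} : Finset (Fin n)) := by
      ext i
      simp only [Finset.mem_filter, Finset.mem_univ, true_and, Finset.mem_insert,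
        Finset.mem_singleton, Fin.ext_iff]
      omega
    rw [h, Finset.card_pair]
    intro h
    rw [Fin.ext_iff] at h
    simp at h
  have h2 := Finset.card_filter_add_card_filter_not (s := (Finset.univ : Finset (Fin n)))
    (fun i : Fin n => i.val < 2)
  rw [h1, Finset.card_univ, Fintype.card_fin] at h2
  have h3 : (Finset.univ.filter (fun i : Fin n => ¬ i.val < 2)).card =
      (A.filter (fun i : Fin n => ¬ i.val < 2)).card +
      (Aᶜ.filter (fun i : Fin n => ¬ i.val < 2)).card := by
    rw [← Finset.card_union_of_disjoint]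
    · congr 1
      rw [← Finset.filter_union, Finset.union_compl]
    · exact Finset.disjoint_filter_filter (disjoint_compl_right)
  omega

lemma cond_fam (hn : 5 ≤ n) (k : ℕ) : Cond (fam n k) := by
  classical
  intro A hA
  set T := A.filter (fun i : Fin n => ¬ i.val < 2) with hT
  obtain ⟨i, hi⟩ : ∃ i, i = T.card := ⟨_, rfl⟩
  obtain ⟨c, hc⟩ : ∃ c, c = (Aᶜ.filter (fun i : Fin n => ¬ i.val < 2)).card := ⟨_, rfl⟩
  have hic : i + c + 2 = n := by
    rw [hi, hc]
    exact card_ge (by omega) A
  -- the sum over the complement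
  have hcomp : ∑ i ∈ Aᶜ, ((fam n k i : ℤ) + 1) =
      (if (⟨0, by omega⟩ : Fin n) ∈ A then 0 else (3 * k + 2 : ℤ)) +
      (if (⟨1, by omega⟩ : Fin n) ∈ A then 0 else (3 * k + 2 : ℤ)) + c * (2 * k + 2) := by
    rw [sum_split (by omega) Aᶜ]
    congr 1
    · congr 1
      · by_cases h : (⟨0, by omega⟩ : Fin n) ∈ A
        · rw [if_neg (by simpa using h), if_pos h]
        · rw [if_pos (by simpa using h), if_neg h]
          simp [fam]
          ring
      · by_cases h : (⟨1, by omega⟩ : Fin n) ∈ A
        · rw [if_neg (by simpa using h), if_pos h]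
        · rw [if_pos (by simpa using h), if_neg h]
          simp [fam]
          ring
    · have : ∀ i ∈ Aᶜ.filter (fun i : Fin n => ¬ i.val < 2), ((fam n k i : ℤ) + 1) =
          2 * k + 2 := by
        intro i hi
        have := (Finset.mem_filter.1 hi).2
        rw [fam, if_neg this]
        push_cast
        ring
      rw [Finset.sum_congr rfl this, Finset.sum_const, hc]
      simp
  -- the signed sum
  have hsgn : ∀ (j : ℕ), j ≤ i → ∀ β : Bool, ∃ s : Fin n → Bool, sgn (fam n k) A s =
      (if (⟨0, by omega⟩ : Fin n) ∈ A then (3 * k : ℤ) else 0) +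
      (if (⟨1, by omega⟩ : Fin n) ∈ A then (if β then (3 * k : ℤ) else -(3 * k)) else 0) +
      2 * k * (2 * j - i) := by
    intro j hj β
    rw [hi] at hj
    obtain ⟨P, hP, hPj⟩ := Finset.exists_subset_card_eq hj
    refine ⟨fun i => if i.val < 2 then (if i.val = 0 then true else β) else decide (i ∈ P), ?_⟩
    rw [sgn, sum_split (by omega) A]
    congr 1
    · congr 1
      · simp [fam]
      · simp [fam]
    · have h1 : ∀ i ∈ T, (if (if i.val < 2 then (if i.val = 0 then true else β)
          else decide (i ∈ P)) = true then ((fam n k i : ℤ) - 1) else -((fam n k i : ℤ) - 1)) =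
          -(2 * k) + (if i ∈ P then (4 * k : ℤ) else 0) := by
        intro i hi
        have h2 := (Finset.mem_filter.1 hi).2
        rw [if_neg h2, fam, if_neg h2]
        by_cases h3 : i ∈ P
        · rw [if_pos (by simpa using h3), if_pos h3]
          push_cast
          ring
        · rw [if_neg (by simpa using h3), if_neg h3]
          push_cast
          ring
      rw [Finset.sum_congr rfl h1, Finset.sum_add_distrib, Finset.sum_const,
        ← Finset.sum_filter, Finset.sum_const]
      have h4 : T.filter (fun i => i ∈ P) = P := by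
        ext x
        simp only [Finset.mem_filter]
        exact ⟨fun h => h.2, fun h => ⟨hP h, h⟩⟩
      rw [h4, hPj, hi]
      simp only [nsmul_eq_mul]
      ring
  rw [hcomp]
  by_cases z0 : (⟨0, by omega⟩ : Fin n) ∈ A <;> by_cases z1 : (⟨1, by omega⟩ : Fin n) ∈ A
  · simp only [z0, z1, if_true] at hsgn ⊢
    rcases Nat.even_or_odd i with ⟨j, hj⟩ | ⟨j, hj⟩
    · obtain ⟨s, hs⟩ := hsgn j (by omega) false
      refine ⟨s, ?_⟩
      have e : (2 * (j : ℤ) - i) = 0 := by rw [hj]; push_cast; ring
      rw [hs, e]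
      simp
      positivity
    · rcases Nat.eq_zero_or_pos j with h0 | h0
      · obtain ⟨s, hs⟩ := hsgn 1 (by omega) false
        refine ⟨s, ?_⟩
        have e : (2 * ((1 : ℕ) : ℤ) - i) = 1 := by rw [hj, h0]; norm_num
        have hc2 : (2 : ℤ) ≤ c := by
          have : 2 ≤ c := by omega
          exact_mod_cast this
        rw [hs, e]
        simp only [Bool.false_eq_true, if_false]
        have e2 : (3 * (k : ℤ) + -(3 * k) + 2 * k * 1) = 2 * k := by ring
        rw [e2, abs_of_nonneg (by positivity)]
        nlinarith [Int.natCast_nonneg k]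
      · obtain ⟨s, hs⟩ := hsgn (j - 1) (by omega) true
        refine ⟨s, ?_⟩
        have e : (2 * ((j - 1 : ℕ) : ℤ) - i) = -3 := by
          rw [hj, Nat.cast_sub h0]
          push_cast
          ring
        rw [hs, e]
        simp only [if_true]
        have e2 : (3 * (k : ℤ) + 3 * k + 2 * k * -3) = 0 := by ring
        rw [e2]
        simp
        positivity
  · simp only [z0, z1, if_true, if_false] at hsgn ⊢
    rcases Nat.eq_zero_or_pos i with h0 | h0
    · obtain ⟨s, hs⟩ := hsgn 0 (by omega) true
      refine ⟨s, ?_⟩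
      have hc2 : (3 : ℤ) ≤ c := by
        have : 3 ≤ c := by omega
        exact_mod_cast this
      rw [hs, h0]
      have e2 : (3 * (k : ℤ) + 0 + 2 * k * (2 * ((0 : ℕ) : ℤ) - ((0 : ℕ) : ℤ))) = 3 * k := by
        push_cast
        ring
      rw [e2, abs_of_nonneg (by positivity)]
      nlinarith [Int.natCast_nonneg k]
    · obtain ⟨s, hs⟩ := hsgn ((i - 1) / 2) (by omega) true
      refine ⟨s, ?_⟩
      have e : (2 * (((i - 1) / 2 : ℕ) : ℤ) - i) = -1 ∨ (2 * (((i - 1) / 2 : ℕ) : ℤ) - i) = -2 := by
        omega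
      rw [hs]
      have hc2 : (0 : ℤ) ≤ c * (2 * k + 2) := by positivity
      rcases e with e | e
      · rw [e]
        have e2 : (3 * (k : ℤ) + 0 + 2 * k * -1) = k := by ring
        rw [e2, abs_of_nonneg (by positivity)]
        linarith [Int.natCast_nonneg k]
      · rw [e]
        have e2 : (3 * (k : ℤ) + 0 + 2 * k * -2) = -k := by ring
        rw [e2, abs_neg, abs_of_nonneg (by positivity)]
        linarith [Int.natCast_nonneg k]
  · simp only [z0, z1, if_true, if_false] at hsgn ⊢
    rcases Nat.eq_zero_or_pos i with h0 | h0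
    · obtain ⟨s, hs⟩ := hsgn 0 (by omega) true
      refine ⟨s, ?_⟩
      have hc2 : (3 : ℤ) ≤ c := by
        have : 3 ≤ c := by omega
        exact_mod_cast this
      rw [hs, h0]
      simp only [if_true]
      have e2 : (0 + 3 * (k : ℤ) + 2 * k * (2 * ((0 : ℕ) : ℤ) - ((0 : ℕ) : ℤ))) = 3 * k := by
        push_cast
        ring
      rw [e2, abs_of_nonneg (by positivity)]
      nlinarith [Int.natCast_nonneg k]
    · obtain ⟨s, hs⟩ := hsgn ((i - 1) / 2) (by omega) true
      refine ⟨s, ?_⟩
      have e : (2 * (((i - 1) / 2 : ℕ) : ℤ) - i) = -1 ∨ (2 * (((i - 1) / 2 : ℕ) : ℤ) - i) = -2 := by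
        omega
      rw [hs]
      simp only [if_true]
      have hc2 : (0 : ℤ) ≤ c * (2 * k + 2) := by positivity
      rcases e with e | e
      · rw [e]
        have e2 : (0 + 3 * (k : ℤ) + 2 * k * -1) = k := by ring
        rw [e2, abs_of_nonneg (by positivity)]
        linarith [Int.natCast_nonneg k]
      · rw [e]
        have e2 : (0 + 3 * (k : ℤ) + 2 * k * -2) = -k := by ring
        rw [e2, abs_neg, abs_of_nonneg (by positivity)]
        linarith [Int.natCast_nonneg k]
  · simp only [z0, z1, if_false] at hsgn ⊢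
    obtain ⟨s, hs⟩ := hsgn ((i + 1) / 2) (by
      have : 1 ≤ i := by
        rw [hi]
        apply Finset.card_pos.2
        obtain ⟨x, hx⟩ := hA
        refine ⟨x, Finset.mem_filter.2 ⟨hx, fun hlt => ?_⟩⟩
        rcases Nat.lt_or_ge x.val 1 with h | h
        · have : x = ⟨0, by omega⟩ := Fin.ext (by simpa using h)
          rw [this] at hx
          exact z0 hx
        · have : x = ⟨1, by omega⟩ := Fin.ext (by show x.val = 1; omega)
          rw [this] at hx
          exact z1 hx
      omega) true
    refine ⟨s, ?_⟩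
    have e : (2 * (((i + 1) / 2 : ℕ) : ℤ) - i) = 0 ∨ (2 * (((i + 1) / 2 : ℕ) : ℤ) - i) = 1 := by
      omega
    rw [hs]
    have hc2 : (0 : ℤ) ≤ c * (2 * k + 2) := by positivity
    rcases e with e | e
    · rw [e]
      have e2 : (0 + 0 + 2 * (k : ℤ) * 0) = 0 := by ring
      rw [e2, abs_zero]
      linarith [Int.natCast_nonneg k]
    · rw [e]
      have e2 : (0 + 0 + 2 * (k : ℤ) * 1) = 2 * k := by ring
      rw [e2, abs_of_nonneg (by positivity)]
      linarith [Int.natCast_nonneg k]

end Pool.Agent.R946.ES
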